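import Pool.Agent.W732.Ud.Stm3
import Pool.Agent.W249.Ud.Geo2

/-!
Project UD2 (helper732), part G2C: the global holomorphic functions `W`, `Y`, continuous on the
closure. The proof is the one of helper249 (`Pool.Agent.W249.Ud.Geo2`) with two more statements.
-/

set_option autoImplicit false

open Metric Set Filter Topology Complex
open scoped ContDiff

namespace Pool.Agent.W500.Ud.Geo2c

open Pool.Agent.W732.Ud Pool.Agent.W249.Ud
open Pool.Agent.W732.Cor (V mv tau)

theorem main : S_geo2c := by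
  intro m e R D A B l β he hR hD hA hSS hnear κ hκ0 hκ1
  have hee : (inner ℂ e e : ℂ) = 1 := by
    rw [inner_self_eq_norm_sq_to_K, he]; simp
  -- constants
  set b0 : ℝ := ‖B‖ with hb0
  set l0 : ℝ := ‖l‖ with hl0
  set a0 : ℝ := ‖A‖ ^ 2 with ha0
  have hb0' : 0 ≤ b0 := norm_nonneg B
  have hl0' : 0 ≤ l0 := norm_nonneg _
  have ha0' : 0 ≤ a0 := by positivity
  have hκ2 : 0 < 1 - κ ^ 2 := by nlinarith
  set ε' : ℝ := (1 - κ ^ 2) / (2 * R) with hε'
  have hε0 : 0 < ε' := by positivity
  have hβ : 1 / (2 * R) ≤ β := by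
    have h := hSS 0 1 (by simp)
    simp only [SS, norm_zero, map_zero, Complex.zero_re] at h
    simpa using h
  have hNlow : ∀ y : V m, (inner ℂ e y : ℂ) = 0 → ‖y‖ ^ 2 / (2 * R) ≤ ‖A y‖ ^ 2 := by
    intro y hy
    have h1 := hSS y 0 hy
    have h2 := hSS (I • y) 0 (by rw [inner_smul_right, hy, mul_zero])
    simp only [SS, map_smul, norm_smul, Complex.norm_I, one_mul, zero_mul, add_zero,
      smul_apply, smul_eq_mul, ne_eq, OfNat.ofNat_ne_zero, not_false_eq_true,
      zero_pow, mul_zero] at h1 h2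
    have h3 : (I * (I * (B y) y)).re = -((B y) y).re := by
      rw [← mul_assoc, Complex.I_mul_I]; simp
    rw [h3] at h2
    have h4 : ‖y‖ ^ 2 / (2 * R) + ‖y‖ ^ 2 / (2 * R) ≤ 2 * ‖A y‖ ^ 2 := by linarith
    linarith
  set c3 : ℝ := a0 + b0 + l0 + |β| with hc3
  have hc3' : 0 ≤ c3 := by positivity
  set c4 : ℝ := a0 + 3 * b0 + 3 * l0 + 1 with hc4
  have hc4' : 0 < c4 := by positivity
  obtain ⟨r, hr, hnr⟩ := hnear (ε' / 4) (by positivity)
  -- eta
  obtain ⟨η, hη0, hη1, hη2⟩ : ∃ η : ℝ, 0 < η ∧ η ≤ 1 ∧ 2 * η * (b0 + l0) ≤ ε' / 4 := by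
    refine ⟨min 1 (ε' / (8 * (b0 + l0 + 1))), lt_min one_pos (by positivity), min_le_left _ _, ?_⟩
    have h1 : min 1 (ε' / (8 * (b0 + l0 + 1))) ≤ ε' / (8 * (b0 + l0 + 1)) := min_le_right _ _
    have h2 : 2 * (min 1 (ε' / (8 * (b0 + l0 + 1)))) * (b0 + l0)
        ≤ 2 * (ε' / (8 * (b0 + l0 + 1))) * (b0 + l0 + 1) := by
      apply mul_le_mul (by linarith) (by linarith) (by positivity) (by positivity)
    refine h2.trans (le_of_eq ?_)
    field_simp
    ring
  -- r0
  obtain ⟨r0, hr0, hr1, hr2, hr3⟩ : ∃ r0 : ℝ, 0 < r0 ∧ r0 ≤ r ∧ 3 * l0 * r0 ≤ 1 / 2 ∧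
      3 * l0 * r0 * c3 ≤ ε' / 4 := by
    have hp : 0 < min (1 / 2) (ε' / (4 * (c3 + 1))) := lt_min (by norm_num) (by positivity)
    refine ⟨min r (min (1 / 2) (ε' / (4 * (c3 + 1))) / (3 * (l0 + 1))), lt_min hr (by positivity),
      min_le_left _ _, ?_, ?_⟩
    all_goals
      have h1 : min r (min (1 / 2) (ε' / (4 * (c3 + 1))) / (3 * (l0 + 1)))
        ≤ min (1 / 2) (ε' / (4 * (c3 + 1))) / (3 * (l0 + 1)) := min_le_right _ _
      have h0 : 0 ≤ min r (min (1 / 2) (ε' / (4 * (c3 + 1))) / (3 * (l0 + 1))) :=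
        (lt_min hr (by positivity)).le
      have h2 : 3 * l0 * min r (min (1 / 2) (ε' / (4 * (c3 + 1))) / (3 * (l0 + 1)))
          ≤ min (1 / 2) (ε' / (4 * (c3 + 1))) := by
        calc 3 * l0 * min r (min (1 / 2) (ε' / (4 * (c3 + 1))) / (3 * (l0 + 1)))
            ≤ 3 * (l0 + 1) * (min (1 / 2) (ε' / (4 * (c3 + 1))) / (3 * (l0 + 1))) := by
              apply mul_le_mul (by linarith) h1 h0 (by positivity)
          _ = min (1 / 2) (ε' / (4 * (c3 + 1))) := by field_simp
    · exact h2.trans (min_le_left _ _)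
    · have h3 : min (1 / 2) (ε' / (4 * (c3 + 1))) ≤ ε' / (4 * (c3 + 1)) := min_le_right _ _
      have h4 : 3 * l0 * min r (min (1 / 2) (ε' / (4 * (c3 + 1))) / (3 * (l0 + 1))) * c3
          ≤ ε' / (4 * (c3 + 1)) * (c3 + 1) := by
        apply mul_le_mul (h2.trans h3) (by linarith) hc3' (by positivity)
      refine h4.trans (le_of_eq ?_)
      field_simp
  -- M
  obtain ⟨M, hM0, hM⟩ : ∃ M : ℝ, 0 < M ∧ ∀ x : ℂ, M * (r0 ^ 2 / (2 * R)) ≤ ‖x‖ →
      ‖ch η x‖ * c4 ≤ 1 / (2 * R) := by
    set τ : ℝ := 1 / (2 * R * c4) with hτ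
    have hτ0 : 0 < τ := by positivity
    refine ⟨Real.exp (-Real.log τ / η) * (2 * R / r0 ^ 2), by positivity, ?_⟩
    intro x hx
    have e1 : Real.exp (-Real.log τ / η) * (2 * R / r0 ^ 2) * (r0 ^ 2 / (2 * R))
        = Real.exp (-Real.log τ / η) := by field_simp
    rw [e1] at hx
    have h1 : -Real.log τ / η ≤ Real.log ‖x‖ := by
      rw [← Real.log_exp (-Real.log τ / η)]
      exact Real.log_le_log (Real.exp_pos _) hx
    have h2 : ‖ch η x‖ ≤ τ := by
      rw [ch_norm, ← Real.exp_log hτ0, Real.exp_le_exp]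
      rw [div_le_iff₀ hη0] at h1
      linarith
    calc ‖ch η x‖ * c4 ≤ τ * c4 := mul_le_mul_of_nonneg_right h2 hc4'.le
      _ = 1 / (2 * R) := by rw [hτ]; field_simp
  -- the functions
  set wf : V m → ℂ := fun z => (R : ℂ) - innerSL ℂ e z with hwf
  set yf : V m → V m := fun z => z - (innerSL ℂ e z) • e with hyf
  have hwd : Differentiable ℂ wf := (differentiable_const _).sub (innerSL ℂ e).differentiable
  have hyd : Differentiable ℂ yf :=
    differentiable_id.sub ((innerSL ℂ e).differentiable.smul_const e)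
  have hyo : ∀ z, (inner ℂ e (yf z) : ℂ) = 0 := by
    intro z
    simp only [hyf, innerSL_apply_apply]
    rw [inner_sub_right, inner_smul_right, hee]
    ring
  have hz : ∀ z, z = ((R : ℂ) - wf z) • e + yf z := by
    intro z
    simp only [hyf, hwf]
    rw [sub_sub_cancel]
    abel
  have hball : ∀ z ∈ D, ‖wf z‖ ^ 2 + ‖yf z‖ ^ 2 < 2 * R * (wf z).re := by
    intro z hzD
    have h1 : ‖z‖ < R := by simpa using hD hzD
    have h2 : ‖z‖ ^ 2 = ‖(R : ℂ) - wf z‖ ^ 2 + ‖yf z‖ ^ 2 := by
      conv_lhs => rw [hz z]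
      have h3 : (inner ℂ (((R : ℂ) - wf z) • e) (yf z) : ℂ) = 0 := by
        rw [inner_smul_left, hyo, mul_zero]
      have h4 := norm_add_sq_eq_norm_sq_add_norm_sq_of_inner_eq_zero _ _ h3
      rw [norm_smul, he, mul_one, ← sq, ← sq, ← sq] at h4
      exact h4
    have h3 : ‖(R : ℂ) - wf z‖ ^ 2 = R ^ 2 - 2 * R * (wf z).re + ‖wf z‖ ^ 2 := by
      rw [← Complex.normSq_eq_norm_sq, ← Complex.normSq_eq_norm_sq, Complex.normSq_apply,
        Complex.normSq_apply]
      simp
      ring
    have h4 : ‖z‖ ^ 2 < R ^ 2 := pow_lt_pow_left₀ h1 (norm_nonneg z) two_ne_zero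
    linarith
  have hu : ∀ z ∈ D, 0 < (wf z).re := by
    intro z hzD
    have h1 := hball z hzD
    have h2 : 0 < 2 * R * (wf z).re := lt_of_le_of_lt (by positivity) h1
    exact pos_of_mul_pos_right h2 (by positivity)
  set xf : V m → ℂ := fun z => 1 + (M : ℂ) * wf z with hxf
  have hxre : ∀ z, (xf z).re = 1 + M * (wf z).re := by
    intro z
    simp [hxf]
  have hxd : Differentiable ℂ xf := (hwd.const_mul _).const_add _
  have hx1 : ∀ z ∈ D, 1 ≤ (xf z).re := by
    intro z hzD
    rw [hxre]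
    have := mul_pos hM0 (hu z hzD)
    linarith
  have hx1c : ∀ z ∈ closure D, 1 ≤ (xf z).re := by
    have hcl : IsClosed {z : V m | 1 ≤ (xf z).re} :=
      isClosed_le continuous_const (Complex.continuous_re.comp hxd.continuous)
    exact fun z hz => closure_minimal (fun z hz => hx1 z hz) hcl hz
  set Tf : V m → ℂ := fun z => B (yf z) (yf z) - I * wf z * l (yf z) with hTf
  have hTd : Differentiable ℂ Tf := by
    have h1 : Differentiable ℂ (fun z => B (yf z) (yf z)) :=
      (B.differentiable.comp hyd).clm_apply hyd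
    have h2 : Differentiable ℂ (fun z => l (yf z)) := l.differentiable.comp hyd
    exact h1.sub ((hwd.const_mul I).mul h2)
  refine ⟨fun z => wf z - ch η (xf z) * Tf z,
    fun z => ((κ : ℂ) * ch (η / 2) (xf z)) • A (yf z), ?_, ?_, ?_, ?_, ?_, ?_⟩
  · intro z hzD
    have h1 : DifferentiableAt ℂ (fun z => ch η (xf z)) z :=
      (ch_diff η (lt_of_lt_of_le one_pos (hx1 z hzD))).comp z (hxd z)
    exact ((hwd z).sub (h1.mul (hTd z))).differentiableWithinAt
  · intro z hzD
    have h1 : DifferentiableAt ℂ (fun z => ch (η / 2) (xf z)) z :=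
      (ch_diff (η / 2) (lt_of_lt_of_le one_pos (hx1 z hzD))).comp z (hxd z)
    have h2 : DifferentiableAt ℂ (fun z => A (yf z)) z := (A.differentiable.comp hyd) z
    exact ((h1.const_mul (κ : ℂ)).smul h2).differentiableWithinAt
  · intro z hzD
    have h1 : DifferentiableAt ℂ (fun z => ch η (xf z)) z :=
      (ch_diff η (lt_of_lt_of_le one_pos (hx1c z hzD))).comp z (hxd z)
    exact ((hwd z).sub (h1.mul (hTd z))).continuousAt.continuousWithinAt
  · intro z hzD
    have h1 : DifferentiableAt ℂ (fun z => ch (η / 2) (xf z)) z :=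
      (ch_diff (η / 2) (lt_of_lt_of_le one_pos (hx1c z hzD))).comp z (hxd z)
    have h2 : DifferentiableAt ℂ (fun z => A (yf z)) z := (A.differentiable.comp hyd) z
    exact ((h1.const_mul (κ : ℂ)).smul h2).continuousAt.continuousWithinAt
  · intro z hzD
    constructor
    · simp only
      rw [inner_smul_right, hA _ (hyo z), mul_zero]
    · have hc1 : ‖ch η (xf z)‖ ≤ 1 :=
        ch_le_one hη0.le ((hx1 z hzD).trans (Complex.re_le_norm _))
      have hmul := re_mul_le hη0.le (x := xf z) (T := Tf z) (le_trans zero_le_one (hx1 z hzD))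
      have hY2 : ‖((κ : ℂ) * ch (η / 2) (xf z)) • A (yf z)‖ ^ 2
          = ‖ch η (xf z)‖ * (κ ^ 2 * ‖A (yf z)‖ ^ 2) := by
        rw [norm_smul, norm_mul, Complex.norm_real, Real.norm_eq_abs, mul_pow, mul_pow, sq_abs,
          ch_sq]
        ring
      have hbz := hball z hzD
      have huz := hu z hzD
      -- bounds of T
      have hTre : (Tf z).re = (B (yf z) (yf z)).re + (wf z).im * (l (yf z)).re
          + (wf z).re * (l (yf z)).im := by
        simp only [hTf, Complex.sub_re, Complex.mul_re, Complex.mul_im, Complex.I_re,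
          Complex.I_im]
        ring
      have hBn : ‖B (yf z) (yf z)‖ ≤ b0 * ‖yf z‖ ^ 2 := by
        refine (B.le_opNorm₂ (yf z) (yf z)).trans (le_of_eq ?_)
        rw [hb0, mul_assoc, sq]
      have hln : ‖l (yf z)‖ ≤ l0 * ‖yf z‖ := l.le_opNorm _
      have hAn : ‖A (yf z)‖ ^ 2 ≤ a0 * ‖yf z‖ ^ 2 := by
        have h1 := A.le_opNorm (yf z)
        rw [ha0, ← mul_pow]
        exact pow_le_pow_left₀ (norm_nonneg _) h1 2
      have hTn : ‖Tf z‖ ≤ b0 * ‖yf z‖ ^ 2 + ‖wf z‖ * (l0 * ‖yf z‖) := by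
        refine (norm_sub_le _ _).trans ?_
        refine add_le_add hBn ?_
        rw [norm_mul, norm_mul, Complex.norm_I, one_mul]
        exact mul_le_mul_of_nonneg_left hln (norm_nonneg _)
      have goal1 : ‖ch η (xf z)‖ * (κ ^ 2 * ‖A (yf z)‖ ^ 2
          + ((B (yf z) (yf z)).re + (wf z).im * (l (yf z)).re + (wf z).re * (l (yf z)).im
            + 2 * η * ‖Tf z‖)) < (wf z).re := by
        by_cases hreg : ‖yf z‖ < r0 ∧ ‖wf z‖ < r0
        · -- near region
          have hnz := hnr (yf z) (wf z) (hyo z) (lt_of_lt_of_le hreg.1 hr1)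
            (lt_of_lt_of_le hreg.2 hr1) (by rw [← hz z]; exact hzD)
          have hw1 : ‖wf z‖ ≤ (wf z).re + |(wf z).im| := by
            have := Complex.norm_le_abs_re_add_abs_im (wf z)
            rwa [abs_of_pos huz] at this
          refine near_ineq (S := SS A B l β (yf z) (wf z).im) (β := β) (w1 := ‖wf z‖)
            (Y1 := ‖yf z‖) (b0 := b0) (l0 := l0) (r0 := r0) (c3 := c3) (ε' := ε')
            (norm_nonneg _) hc1 huz ?_ ?_ hw1 hTn (norm_nonneg _) hreg.1.le hb0' hl0' hη0.le hη1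
            hε0.le ?_ hη2 hr2 hr3 ?_ hnz
          · simp only [SS]
          · exact ((Complex.abs_im_le_norm _).trans hln).trans' (le_abs_self _)
          · have h1 := hNlow (yf z) (hyo z)
            have h2 : ε' * ‖yf z‖ ^ 2 ≤ (1 - κ ^ 2) * ‖A (yf z)‖ ^ 2 := by
              have h3 := mul_le_mul_of_nonneg_left h1 hκ2.le
              calc ε' * ‖yf z‖ ^ 2 = (1 - κ ^ 2) * (‖yf z‖ ^ 2 / (2 * R)) := by
                    rw [hε']; ring
                _ ≤ _ := h3
            have h4 : ε' ≤ β := by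
              refine le_trans ?_ hβ
              rw [hε']
              apply div_le_div_of_nonneg_right _ (by positivity)
              nlinarith [sq_nonneg κ]
            have h5 : ε' * (wf z).im ^ 2 ≤ β * (wf z).im ^ 2 :=
              mul_le_mul_of_nonneg_right h4 (sq_nonneg _)
            linarith
          · simp only [SS]
            have h1 : (B (yf z) (yf z)).re ≤ b0 * ‖yf z‖ ^ 2 := (Complex.re_le_norm _).trans hBn
            have h2 : (wf z).im * (l (yf z)).re ≤ l0 * (‖yf z‖ ^ 2 + (wf z).im ^ 2) := by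
              have h3 : (wf z).im * (l (yf z)).re ≤ |(wf z).im| * (l0 * ‖yf z‖) := by
                refine (le_abs_self _).trans ?_
                rw [abs_mul]
                exact mul_le_mul_of_nonneg_left ((Complex.abs_re_le_norm _).trans hln)
                  (abs_nonneg _)
              have h4 := sq_nonneg (|(wf z).im| - ‖yf z‖)
              have h5 : |(wf z).im| ^ 2 = (wf z).im ^ 2 := sq_abs _
              have h6 : |(wf z).im| * ‖yf z‖ ≤ ‖yf z‖ ^ 2 + (wf z).im ^ 2 := by nlinarith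
              have h7 := mul_le_mul_of_nonneg_left h6 hl0'
              linarith
            have h3 : β * (wf z).im ^ 2 ≤ |β| * (wf z).im ^ 2 :=
              mul_le_mul_of_nonneg_right (le_abs_self _) (sq_nonneg _)
            have h4 : 0 ≤ a0 * (wf z).im ^ 2 := by positivity
            have h5 : 0 ≤ b0 * (wf z).im ^ 2 := by positivity
            have h6 : 0 ≤ |β| * ‖yf z‖ ^ 2 := by positivity
            rw [hc3]
            linarith
        · -- far region
          have hfar : r0 ^ 2 ≤ ‖wf z‖ ^ 2 + ‖yf z‖ ^ 2 := by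
            rw [not_and_or, not_lt, not_lt] at hreg
            rcases hreg with h | h
            · have := pow_le_pow_left₀ hr0.le h 2
              have := sq_nonneg ‖wf z‖
              linarith
            · have := pow_le_pow_left₀ hr0.le h 2
              have := sq_nonneg ‖yf z‖
              linarith
          have hxn : M * (r0 ^ 2 / (2 * R)) ≤ ‖xf z‖ := by
            have h1 : r0 ^ 2 / (2 * R) ≤ (wf z).re := by
              rw [div_le_iff₀ (by positivity)]
              linarith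
            have h2 := mul_le_mul_of_nonneg_left h1 hM0.le
            refine le_trans ?_ (Complex.re_le_norm _)
            rw [hxre]
            linarith
          have hcM := hM (xf z) hxn
          set s3 : ℝ := ‖wf z‖ ^ 2 + ‖yf z‖ ^ 2 with hs3
          have hs30 : 0 ≤ s3 := by positivity
          have hT3 : ‖Tf z‖ ≤ (b0 + l0) * s3 := by
            have h1 := sq_nonneg (‖wf z‖ - ‖yf z‖)
            have h2 : ‖wf z‖ * ‖yf z‖ ≤ s3 := by rw [hs3]; nlinarith
            have h3 := mul_le_mul_of_nonneg_left h2 hl0'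
            have h4 : b0 * ‖yf z‖ ^ 2 ≤ b0 * s3 :=
              mul_le_mul_of_nonneg_left (by rw [hs3]; nlinarith [sq_nonneg ‖wf z‖]) hb0'
            linarith
          have hTre2 : (Tf z).re ≤ ‖Tf z‖ := Complex.re_le_norm _
          have hE : κ ^ 2 * ‖A (yf z)‖ ^ 2 + ((B (yf z) (yf z)).re + (wf z).im * (l (yf z)).re
              + (wf z).re * (l (yf z)).im + 2 * η * ‖Tf z‖) ≤ c4 * s3 := by
            rw [← hTre]
            have h1 : κ ^ 2 * ‖A (yf z)‖ ^ 2 ≤ a0 * s3 := by
              have h2 : κ ^ 2 * ‖A (yf z)‖ ^ 2 ≤ 1 * ‖A (yf z)‖ ^ 2 :=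
                mul_le_mul_of_nonneg_right (by linarith) (sq_nonneg _)
              have h3 : a0 * ‖yf z‖ ^ 2 ≤ a0 * s3 :=
                mul_le_mul_of_nonneg_left (by rw [hs3]; nlinarith [sq_nonneg ‖wf z‖]) ha0'
              linarith
            have h2 : 2 * η * ‖Tf z‖ ≤ 2 * ‖Tf z‖ :=
              mul_le_mul_of_nonneg_right (by linarith) (norm_nonneg _)
            rw [hc4]
            linarith
          have h1 := mul_le_mul_of_nonneg_left hE (norm_nonneg (ch η (xf z)))
          have h2 := mul_le_mul_of_nonneg_right hcM hs30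
          have h3 : 1 / (2 * R) * s3 < (wf z).re := by
            rw [one_div, inv_mul_lt_iff₀ (by positivity)]
            exact hbz
          linarith
      rw [hY2, Complex.sub_re]
      rw [hTre] at hmul
      linarith
  · -- asymptotics
    intro σ hσ
    -- continuity of the factor at 1
    have hcont : ∀ η' : ℝ, Tendsto (fun w : ℂ => ch η' (1 + (M : ℂ) * w)) (𝓝 0) (𝓝 1) := by
      intro η'
      have h1 : ContinuousAt (fun w : ℂ => ch η' (1 + (M : ℂ) * w)) 0 := by
        refine ContinuousAt.comp (g := ch η') ?_ (by fun_prop)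
        apply (ch_diff η' _).continuousAt
        simp
      have h2 := h1.tendsto
      simpa [ch_one] using h2
    have hev : ∀ (η' ζ : ℝ), 0 < ζ → ∃ ρ : ℝ, 0 < ρ ∧ ∀ w : ℂ, ‖w‖ < ρ →
        ‖ch η' (1 + (M : ℂ) * w) - 1‖ < ζ := by
      intro η' ζ hζ
      have h1 := (hcont η').eventually (Metric.ball_mem_nhds 1 hζ)
      obtain ⟨ρ, hρ, h2⟩ := Metric.eventually_nhds_iff.mp h1
      refine ⟨ρ, hρ, fun w hw => ?_⟩
      have h3 := h2 (y := w) (by simpa using hw)
      rwa [dist_eq_norm] at h3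
    obtain ⟨ρ1, hρ1, hh1⟩ := hev η (σ / (b0 + 1)) (by positivity)
    obtain ⟨ρ2, hρ2, hh2⟩ := hev (η / 2) (σ / (‖A‖ + 1)) (by positivity)
    refine ⟨min (min ρ1 ρ2) (σ / (l0 + 1)), lt_min (lt_min hρ1 hρ2) (by positivity), ?_⟩
    intro y w hy hyr hwr hyD
    set z : V m := ((R : ℂ) - w) • e + y with hzz
    have hinn : (innerSL ℂ e z : ℂ) = (R : ℂ) - w := by
      rw [innerSL_apply_apply, hzz, inner_add_right, inner_smul_right, hee, hy]
      ring
    have hwz : wf z = w := by
      simp only [hwf]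
      rw [hinn]; ring
    have hyz : yf z = y := by
      simp only [hyf]
      rw [hinn, hzz]; abel
    have hw1 : ‖w‖ < ρ1 := lt_of_lt_of_le hwr ((min_le_left _ _).trans (min_le_left _ _))
    have hw2 : ‖w‖ < ρ2 := lt_of_lt_of_le hwr ((min_le_left _ _).trans (min_le_right _ _))
    have hy3 : ‖y‖ < σ / (l0 + 1) := lt_of_lt_of_le hyr (min_le_right _ _)
    have hxz : xf z = 1 + (M : ℂ) * w := by
      simp only [hxf, hwz]
    have hx1' : 1 ≤ ‖xf z‖ := (hx1 z hyD).trans (Complex.re_le_norm _)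
    constructor
    · simp only [hTf, hwz, hyz]
      have e1 : w - ch η (xf z) * (B y y - I * w * l y) - (w - B y y)
          = (1 - ch η (xf z)) * B y y + I * (ch η (xf z) * (w * l y)) := by ring
      rw [e1]
      refine (norm_add_le _ _).trans ?_
      have h1 : ‖(1 - ch η (xf z)) * B y y‖ ≤ σ * ‖y‖ ^ 2 := by
        rw [norm_mul, norm_sub_rev]
        have h2 : ‖B y y‖ ≤ b0 * ‖y‖ ^ 2 := by
          refine (B.le_opNorm₂ y y).trans (le_of_eq ?_)
          rw [hb0, mul_assoc, sq]
        have h3 : ‖ch η (xf z) - 1‖ ≤ σ / (b0 + 1) := by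
          rw [hxz]; exact (hh1 w hw1).le
        calc ‖ch η (xf z) - 1‖ * ‖B y y‖ ≤ σ / (b0 + 1) * (b0 * ‖y‖ ^ 2) :=
              mul_le_mul h3 h2 (norm_nonneg _) (by positivity)
          _ ≤ σ / (b0 + 1) * ((b0 + 1) * ‖y‖ ^ 2) := by
              apply mul_le_mul_of_nonneg_left _ (by positivity)
              exact mul_le_mul_of_nonneg_right (by linarith) (by positivity)
          _ = σ * ‖y‖ ^ 2 := by field_simp
      have h4 : ‖I * (ch η (xf z) * (w * l y))‖ ≤ σ * ‖w‖ := by
        rw [norm_mul, Complex.norm_I, one_mul, norm_mul, norm_mul]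
        have h5 : ‖ch η (xf z)‖ ≤ 1 := ch_le_one hη0.le hx1'
        have h6 : ‖l y‖ ≤ σ := by
          refine (l.le_opNorm y).trans ?_
          have h7 : l0 * ‖y‖ ≤ (l0 + 1) * (σ / (l0 + 1)) :=
            mul_le_mul (by linarith) hy3.le (norm_nonneg _) (by positivity)
          refine h7.trans (le_of_eq ?_)
          field_simp
        calc ‖ch η (xf z)‖ * (‖w‖ * ‖l y‖) ≤ 1 * (‖w‖ * σ) := by
              apply mul_le_mul h5 _ (by positivity) zero_le_one
              exact mul_le_mul_of_nonneg_left h6 (norm_nonneg _)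
          _ = σ * ‖w‖ := by ring
      linarith
    · simp only [hyz]
      have e1 : ((κ : ℂ) * ch (η / 2) (xf z)) • A y - (κ : ℂ) • A y
          = ((κ : ℂ) * (ch (η / 2) (xf z) - 1)) • A y := by
        rw [← sub_smul]; congr 1; ring
      rw [e1, norm_smul, norm_mul, Complex.norm_real, Real.norm_eq_abs, abs_of_pos hκ0]
      have h3 : ‖ch (η / 2) (xf z) - 1‖ ≤ σ / (‖A‖ + 1) := by
        rw [hxz]; exact (hh2 w hw2).le
      have h4 : ‖A y‖ ≤ (‖A‖ + 1) * ‖y‖ := by
        refine (A.le_opNorm y).trans ?_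
        exact mul_le_mul_of_nonneg_right (by linarith) (norm_nonneg _)
      calc κ * ‖ch (η / 2) (xf z) - 1‖ * ‖A y‖
          ≤ 1 * (σ / (‖A‖ + 1)) * ((‖A‖ + 1) * ‖y‖) := by
            apply mul_le_mul _ h4 (norm_nonneg _) (by positivity)
            exact mul_le_mul hκ1.le h3 (norm_nonneg _) zero_le_one
        _ = σ * ‖y‖ := by field_simp

end Pool.Agent.W500.Ud.Geo2c

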